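import Pool.Agent.Q45.SN.Stm
import Pool.Agent.Q45.NE.Res

/-!
# Double transitivity over the field of fractions (job SN-DTG of helper45)
-/

set_option autoImplicit false
set_option linter.all false

open Polynomial
open scoped Classical

namespace Pool.Agent.Q299.SN.DTG

open Pool.Agent.Q45.SN Pool.Agent.Q45.NE

section frac

variable {A K₀ : Type} [CommRing A] [IsDomain A] [Field K₀] [Algebra A K₀] [IsFractionRing A K₀]
  (e : A[X])

/-- The elements with a denominator in `A`. -/
def Fr (x : AdjoinRoot (quo (e.map (algebraMap A K₀)))) : Prop :=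
  ∃ a : A, a ≠ 0 ∧ ∃ b : AdjoinRoot (quo e),
    algebraMap K₀ (AdjoinRoot (quo (e.map (algebraMap A K₀)))) (algebraMap A K₀ a) * x =
      sp2 (algebraMap A K₀) e b

theorem fr_add {x y : AdjoinRoot (quo (e.map (algebraMap A K₀)))} (hx : Fr e x) (hy : Fr e y) :
    Fr e (x + y) := by
  obtain ⟨a, ha, b, hb⟩ := hx
  obtain ⟨a', ha', b', hb'⟩ := hy
  refine ⟨a * a', mul_ne_zero ha ha', algebraMap A _ a' * b + algebraMap A _ a * b', ?_⟩
  rw [map_add, map_mul (sp2 (algebraMap A K₀) e), map_mul (sp2 (algebraMap A K₀) e), sp2_of, sp2_of,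
    ← hb, ← hb', map_mul, map_mul]
  ring

theorem fr_mul {x y : AdjoinRoot (quo (e.map (algebraMap A K₀)))} (hx : Fr e x) (hy : Fr e y) :
    Fr e (x * y) := by
  obtain ⟨a, ha, b, hb⟩ := hx
  obtain ⟨a', ha', b', hb'⟩ := hy
  refine ⟨a * a', mul_ne_zero ha ha', b * b', ?_⟩
  rw [map_mul (sp2 (algebraMap A K₀) e), ← hb, ← hb', map_mul, map_mul]
  ring

theorem fr_pow {x : AdjoinRoot (quo (e.map (algebraMap A K₀)))} (hx : Fr e x) (n : ℕ) :
    Fr e (x ^ n) := by
  induction n with
  | zero =>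
    refine ⟨1, one_ne_zero, 1, ?_⟩
    simp
  | succ n ih =>
    rw [pow_succ]
    exact fr_mul e ih hx

theorem fr_base (z : K₀) :
    Fr e (AdjoinRoot.of (quo (e.map (algebraMap A K₀))) (AdjoinRoot.of (e.map (algebraMap A K₀)) z)) := by
  obtain ⟨⟨b, ⟨a, ha⟩⟩, h⟩ := IsLocalization.surj (nonZeroDivisors A) z
  refine ⟨a, nonZeroDivisors.ne_zero ha, algebraMap A _ b, ?_⟩
  rw [sp2_of]
  have h' : algebraMap A K₀ a * z = algebraMap A K₀ b := by
    rw [mul_comm]
    exact h
  rw [← h', map_mul]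
  rfl

theorem fr_all (x : AdjoinRoot (quo (e.map (algebraMap A K₀)))) : Fr e x := by
  have h1 : ∀ y : AdjoinRoot (e.map (algebraMap A K₀)),
      Fr e (AdjoinRoot.of (quo (e.map (algebraMap A K₀))) y) := by
    intro y
    obtain ⟨g, rfl⟩ := AdjoinRoot.mk_surjective y
    induction g using Polynomial.induction_on' with
    | add p q hp hq =>
      rw [map_add, map_add]
      exact fr_add e hp hq
    | monomial n z =>
      rw [← C_mul_X_pow_eq_monomial, map_mul, map_pow, AdjoinRoot.mk_C, AdjoinRoot.mk_X, map_mul,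
        map_pow]
      refine fr_mul e (fr_base e z) (fr_pow e ?_ n)
      refine ⟨1, one_ne_zero, AdjoinRoot.of (quo e) (AdjoinRoot.root e), ?_⟩
      rw [sp2, AdjoinRoot.lift_of, RingHom.comp_apply, sp1_root]
      simp
  obtain ⟨g, rfl⟩ := AdjoinRoot.mk_surjective x
  induction g using Polynomial.induction_on' with
  | add p q hp hq =>
    rw [map_add]
    exact fr_add e hp hq
  | monomial n z =>
    rw [← C_mul_X_pow_eq_monomial, map_mul, map_pow, AdjoinRoot.mk_C, AdjoinRoot.mk_X]
    refine fr_mul e (h1 z) (fr_pow e ?_ n)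
    refine ⟨1, one_ne_zero, AdjoinRoot.root (quo e), ?_⟩
    rw [sp2, AdjoinRoot.lift_root]
    simp

end frac

theorem hom_ext' {R S : Type} [CommRing R] [CommRing S] {f : R[X]} (φ ψ : AdjoinRoot f →+* S)
    (h1 : φ.comp (AdjoinRoot.of f) = ψ.comp (AdjoinRoot.of f))
    (h2 : φ (AdjoinRoot.root f) = ψ (AdjoinRoot.root f)) : φ = ψ := by
  refine RingHom.ext fun x => ?_
  obtain ⟨g, rfl⟩ := AdjoinRoot.mk_surjective x
  have h : φ.comp (AdjoinRoot.mk f) = ψ.comp (AdjoinRoot.mk f) := by
    refine Polynomial.ringHom_ext (fun a => ?_) ?_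
    · exact congrArg (fun χ => χ a) h1
    · exact h2
  exact congrArg (fun χ => χ g) h

theorem main : S_DTG := by
  intro A K₀ _ _ _ _ _ e he hn hdom
  haveI := hdom
  have hem : (e.map (algebraMap A K₀)).Monic := he.map _
  have hen : (e.map (algebraMap A K₀)).natDegree = e.natDegree := he.natDegree_map _
  have hsinj : Function.Injective (algebraMap A K₀) := IsFractionRing.injective A K₀
  haveI : Nontrivial (AdjoinRoot e) := AdjoinRoot.nontrivial e
    (natDegree_pos_iff_degree_pos.1 (by omega)).ne'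
  haveI : Module.Free A (AdjoinRoot e) := Module.Free.of_basis (AdjoinRoot.powerBasis' he).basis
  haveI : Module.Free (AdjoinRoot e) (AdjoinRoot (quo e)) :=
    Module.Free.of_basis (AdjoinRoot.powerBasis' (quo_monic he)).basis
  haveI : Module.Free A (AdjoinRoot (quo e)) := Module.Free.trans (S := AdjoinRoot e)
  haveI : FaithfulSMul A (AdjoinRoot (quo e)) := inferInstance
  have hAB : Function.Injective (algebraMap A (AdjoinRoot (quo e))) :=
    FaithfulSMul.algebraMap_injective A (AdjoinRoot (quo e))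
  let B := AdjoinRoot (quo e)
  let L := FractionRing B
  have hBL : Function.Injective (algebraMap B L) := IsFractionRing.injective B L
  let g : A →+* L := (algebraMap B L).comp (algebraMap A B)
  have hg : Function.Injective g := hBL.comp hAB
  let j : K₀ →+* L := IsFractionRing.lift hg
  have hj : ∀ a : A, j (algebraMap A K₀ a) = algebraMap B L (algebraMap A B a) := fun a =>
    IsFractionRing.lift_algebraMap hg a
  let th1 : L := algebraMap B L (AdjoinRoot.of (quo e) (AdjoinRoot.root e))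
  let th2 : L := algebraMap B L (AdjoinRoot.root (quo e))
  have e1 : j.comp (algebraMap A K₀) =
      ((algebraMap B L).comp (AdjoinRoot.of (quo e))).comp (AdjoinRoot.of e) :=
    RingHom.ext fun a => hj a
  have p1 : (e.map (algebraMap A K₀)).eval₂ j th1 = 0 := by
    rw [eval₂_map, e1]
    have h1 := hom_eval₂ e (AdjoinRoot.of e) ((algebraMap B L).comp (AdjoinRoot.of (quo e)))
      (AdjoinRoot.root e)
    rw [AdjoinRoot.eval₂_root, map_zero] at h1
    exact h1.symm
  let ψ1 : AdjoinRoot (e.map (algebraMap A K₀)) →+* L := AdjoinRoot.lift j th1 p1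
  have e2 : ψ1.comp (sp1 (algebraMap A K₀) e) = (algebraMap B L).comp (AdjoinRoot.of (quo e)) := by
    refine hom_ext' _ _ (RingHom.ext fun a => ?_) ?_
    · show ψ1 (sp1 (algebraMap A K₀) e (AdjoinRoot.of e a)) = _
      rw [sp1_of, AdjoinRoot.lift_of]
      exact hj a
    · show ψ1 (sp1 (algebraMap A K₀) e (AdjoinRoot.root e)) = _
      rw [sp1_root, AdjoinRoot.lift_root]
      rfl
  have p2 : (quo (e.map (algebraMap A K₀))).eval₂ ψ1 th2 = 0 := by
    rw [← quo_map, eval₂_map, e2]
    have h1 := hom_eval₂ (quo e) (AdjoinRoot.of (quo e)) (algebraMap B L) (AdjoinRoot.root (quo e))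
    rw [AdjoinRoot.eval₂_root, map_zero] at h1
    exact h1.symm
  let ψ : AdjoinRoot (quo (e.map (algebraMap A K₀))) →+* L := AdjoinRoot.lift ψ1 th2 p2
  have e3 : ψ.comp (sp2 (algebraMap A K₀) e) = algebraMap B L := by
    refine hom_ext' _ _ (RingHom.ext fun a => ?_) ?_
    · show ψ (sp2 (algebraMap A K₀) e (AdjoinRoot.of (quo e) a)) = _
      rw [sp2, AdjoinRoot.lift_of, RingHom.comp_apply, AdjoinRoot.lift_of]
      exact congrArg (fun χ => χ a) e2
    · show ψ (sp2 (algebraMap A K₀) e (AdjoinRoot.root (quo e))) = _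
      rw [sp2, AdjoinRoot.lift_root, AdjoinRoot.lift_root]
  have hψ : Function.Injective ψ := by
    rw [injective_iff_map_eq_zero]
    intro x hx
    obtain ⟨a, ha, b, hb⟩ := fr_all e x
    have h1 := congrArg ψ hb
    have h2 : ψ (sp2 (algebraMap A K₀) e b) = algebraMap B L b := congrArg (fun χ => χ b) e3
    rw [map_mul, hx, mul_zero, h2] at h1
    have hb0 : b = 0 := by
      apply hBL
      rw [← h1, map_zero]
    rw [hb0, map_zero] at hb
    have hu : IsUnit (algebraMap K₀ (AdjoinRoot (quo (e.map (algebraMap A K₀)))) (algebraMap A K₀ a)) :=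
      (IsUnit.mk0 _ ((map_ne_zero_iff _ hsinj).2 ha)).map _
    exact (hu.mul_right_eq_zero).1 hb
  have hC : IsDomain (AdjoinRoot (quo (e.map (algebraMap A K₀)))) := hψ.isDomain ψ
  exact dt_of_dom hem (irr_of_quo hem (by rw [hen]; exact hn) hC) hC

end Pool.Agent.Q299.SN.DTG
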