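import Pool.Agent.Q45.SN.Stm

/-!
# Double transitivity and a transposition give the full symmetric group (job SN-FUL of helper45)
-/

set_option autoImplicit false

open Polynomial
open scoped Classical

namespace Pool.Agent.Q299.SN.FUL

open Pool.Agent.Q45.SN

theorem main : S_FUL := by
  intro k _ p hp hdt hsw
  refine ⟨hp, ?_⟩
  obtain ⟨σ, a, b, hab, ha, hb, h1, h2, h3⟩ := hsw
  let H : Subgroup (Equiv.Perm (p.rootSet (SeparableClosure k))) :=
    { carrier := {π | ∃ τ : SeparableClosure k ≃ₐ[k] SeparableClosure k,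
        ∀ x : p.rootSet (SeparableClosure k), τ (x : SeparableClosure k) = (π x : SeparableClosure k)}
      mul_mem' := by
        rintro π ρ ⟨τ, hτ⟩ ⟨υ, hυ⟩
        refine ⟨υ.trans τ, fun x => ?_⟩
        show τ (υ x) = _
        rw [hυ, hτ]
        rfl
      one_mem' := ⟨AlgEquiv.refl, fun x => rfl⟩
      inv_mem' := by
        rintro π ⟨τ, hτ⟩
        refine ⟨τ.symm, fun x => ?_⟩
        rw [AlgEquiv.symm_apply_eq, hτ]
        simp }
  have hH : H = ⊤ := by
    rw [eq_top_iff, ← Equiv.Perm.closure_isSwap, Subgroup.closure_le]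
    rintro π ⟨c, d, hcd, rfl⟩
    obtain ⟨τ, hτ1, hτ2⟩ := hdt a b c d ha hb hab (mem_rootSet.1 c.2).2 (mem_rootSet.1 d.2).2
      (fun h => hcd (Subtype.ext h))
    refine ⟨(τ.symm.trans σ).trans τ, fun x => ?_⟩
    show τ (σ (τ.symm x)) = _
    by_cases hxc : x = c
    · subst hxc
      rw [Equiv.swap_apply_left]
      have : τ.symm (x : SeparableClosure k) = a := by rw [AlgEquiv.symm_apply_eq, hτ1]
      rw [this, h1, hτ2]
    · by_cases hxd : x = d
      · subst hxd
        rw [Equiv.swap_apply_right]
        have : τ.symm (x : SeparableClosure k) = b := by rw [AlgEquiv.symm_apply_eq, hτ2]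
        rw [this, h2, hτ1]
      · rw [Equiv.swap_apply_of_ne_of_ne hxc hxd, h3 (τ.symm x) ?_ ?_ ?_, τ.apply_symm_apply]
        · have h5 := aeval_algHom_apply (τ.symm : SeparableClosure k →ₐ[k] SeparableClosure k)
            (x : SeparableClosure k) p
          rw [(mem_rootSet.1 x.2).2, map_zero] at h5
          exact h5
        · intro h
          rw [AlgEquiv.symm_apply_eq, hτ1] at h
          exact hxc (Subtype.ext h)
        · intro h
          rw [AlgEquiv.symm_apply_eq, hτ2] at h
          exact hxd (Subtype.ext h)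
  intro π
  have : π ∈ H := hH ▸ Subgroup.mem_top π
  exact this

end Pool.Agent.Q299.SN.FUL
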