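import Pool.Agent.Q299.SN.SPCa
import Pool.Agent.Q45.SN.Stm

/-!
# Hilbert irreducibility for the full symmetric group (job SN-SPC of helper45)
-/

set_option autoImplicit false
set_option linter.all false

open Polynomial
open scoped Classical

namespace Pool.Agent.Q299.SN.SPC

open Pool.Agent.Q45.SN
open Pool.Agent.Q45.HI (spc)
open Pool.Agent.W275.UB (UD)

/-- The specialization argument. -/
theorem key {A K₀ k : Type} [CommRing A] [IsDomain A] [IsIntegrallyClosed A] [Field K₀]
    [Algebra A K₀] [IsFractionRing A K₀] [Field k] [CharZero A] [CharZero k] (e : A[X])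
    (he : e.Monic) (hfull : Full (e.map (algebraMap A K₀))) :
    ∃ Ψ : A[X], Ψ.Monic ∧ Irreducible Ψ ∧ ∀ s : A →+* k, Function.Surjective s →
      Irreducible (Ψ.map s) → Full (e.map s) := by
  obtain ⟨hsep, hperm⟩ := hfull
  set p := e.map (algebraMap A K₀) with hp
  have hpm : p.Monic := he.map _
  haveI : CharZero K₀ := charZero_of_injective_algebraMap (IsFractionRing.injective A K₀)
  let M := SeparableClosure K₀
  haveI : CharZero M := charZero_of_injective_algebraMap (algebraMap K₀ M).injective
  let R := p.rootSet M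
  obtain ⟨w, hw⟩ := exists_w (fun r : R => (r : M)) Subtype.val_injective
  have hinjM : Function.Injective (algebraMap A M) := by
    rw [IsScalarTower.algebraMap_eq A K₀ M]
    exact (algebraMap K₀ M).injective.comp (IsFractionRing.injective A K₀)
  let B := integralClosure A M
  have hinjB : Function.Injective (algebraMap A B) := by
    intro a b h
    exact hinjM (congrArg (fun z : B => (z : M)) h)
  have hrint : ∀ r : R, IsIntegral A (r : M) := by
    intro r
    refine ⟨e, he, ?_⟩
    have h1 : aeval (r : M) p = 0 := (mem_rootSet.1 r.2).2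
    rw [hp, aeval_map_algebraMap] at h1
    exact h1
  let rB : R → B := fun r => ⟨r, hrint r⟩
  -- the conjugates of the primitive element
  let Th : Equiv.Perm R → B := fun π => ∑ r, (w r : B) * rB (π r)
  have hThM : ∀ π, ((Th π : B) : M) = ∑ r, (w r : M) * ((π r : R) : M) := by
    intro π
    simp only [Th, rB]
    push_cast
    rfl
  have hThinj : Function.Injective Th := by
    intro π ρ h
    by_contra hne
    refine hw π ρ hne ?_
    rw [← hThM, ← hThM, h]
  let Ψ : A[X] := minpoly A (Th 1)
  have hThint : IsIntegral A (Th 1) := Algebra.IsIntegral.isIntegral _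
  have hΨm : Ψ.Monic := minpoly.monic hThint
  have hroots : ∀ π, aeval (Th π) Ψ = 0 := by
    intro π
    obtain ⟨σ, hσ⟩ := hperm π
    have h1 : aeval (Th 1) Ψ = 0 := minpoly.aeval A (Th 1)
    have h2 : aeval ((Th 1 : B) : M) Ψ = 0 := by
      have := congrArg (fun z : B => (z : M)) h1
      simpa using this
    have h3 := aeval_algHom_apply ((σ : M →ₐ[K₀] M).restrictScalars A) ((Th 1 : B) : M) Ψ
    rw [h2, map_zero] at h3
    have h4 : ((σ : M →ₐ[K₀] M).restrictScalars A) ((Th 1 : B) : M) = ((Th π : B) : M) := by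
      show σ ((Th 1 : B) : M) = _
      rw [hThM, hThM, map_sum]
      refine Finset.sum_congr rfl fun r _ => ?_
      rw [map_mul, map_natCast]
      congr 1
      exact hσ r
    rw [h4] at h3
    apply Subtype.ext
    simpa using h3
  refine ⟨Ψ, hΨm, minpoly.irreducible hThint, fun s hs hirr => ?_⟩
  let E := SeparableClosure k
  haveI : CharZero E := charZero_of_injective_algebraMap (algebraMap k E).injective
  obtain ⟨φ, hφ⟩ := exists_ext (E := E) hinjB s hs
  -- the factorization of the specialized polynomial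
  have hfacM : e.map (algebraMap A M) = ∏ r : R, (X - C (r : M)) := by
    have hspl : (p.map (algebraMap K₀ M)).Splits := IsSepClosed.splits_codomain p hsep
    have h1 := hspl.eq_prod_roots_of_monic (hpm.map _)
    have h2 : p.map (algebraMap K₀ M) = e.map (algebraMap A M) := by
      rw [hp, Polynomial.map_map, ← IsScalarTower.algebraMap_eq]
    rw [← h2, h1]
    have hnd : (p.map (algebraMap K₀ M)).roots.Nodup := nodup_roots hsep.map
    have h3 : ∏ r : R, (X - C (r : M)) =
        ∏ x ∈ (⟨(p.map (algebraMap K₀ M)).roots, hnd⟩ : Finset M), (X - C x) := by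
      refine (Finset.prod_subtype (⟨(p.map (algebraMap K₀ M)).roots, hnd⟩ : Finset M)
        (p := fun x => x ∈ p.rootSet M) (fun x => ?_) (fun x => X - C x)).symm
      rw [mem_rootSet]
      exact mem_aroots
    rw [h3]
    rfl
  have hfacB : e.map (algebraMap A B) = ∏ r : R, (X - C (rB r)) := by
    have hinj : Function.Injective (Polynomial.map (algebraMap B M)) :=
      Polynomial.map_injective _ Subtype.val_injective
    apply hinj
    rw [Polynomial.map_map, ← IsScalarTower.algebraMap_eq, hfacM, Polynomial.map_prod]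
    refine Finset.prod_congr rfl fun r _ => ?_
    rw [Polynomial.map_sub, map_X, map_C]
    rfl
  have hfacE : (e.map s).map (algebraMap k E) = ∏ r : R, (X - C (φ (rB r))) := by
    rw [Polynomial.map_map, ← hφ, ← Polynomial.map_map, hfacB, Polynomial.map_prod]
    refine Finset.prod_congr rfl fun r _ => ?_
    rw [Polynomial.map_sub, map_X, map_C]
  -- the conjugates stay distinct
  have hdvd : (∏ π : Equiv.Perm R, (X - C (Th π))) ∣ Ψ.map (algebraMap A B) := by
    have hne : Ψ.map (algebraMap A B) ≠ 0 := (hΨm.map _).ne_zero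
    have h1 : (Finset.univ.image Th).val ≤ (Ψ.map (algebraMap A B)).roots := by
      rw [Multiset.le_iff_subset (Finset.nodup _)]
      intro z hz
      have hz' : z ∈ Finset.univ.image Th := hz
      obtain ⟨π, _, rfl⟩ := Finset.mem_image.1 hz'
      rw [mem_roots hne, IsRoot, eval_map]
      exact hroots π
    have h2 := (Multiset.prod_dvd_prod_of_le (Multiset.map_le_map (f := fun a => X - C a) h1)).trans
      (prod_multiset_X_sub_C_dvd _)
    have h3 : ((Finset.univ.image Th).val.map (fun a => X - C a)).prod =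
        ∏ π : Equiv.Perm R, (X - C (Th π)) := by
      show ∏ x ∈ Finset.univ.image Th, (X - C x) = _
      rw [Finset.prod_image (fun a _ b _ h => hThinj h)]
    rwa [h3] at h2
  have hsepΨ : ((Ψ.map s).map (algebraMap k E)).Separable := (hirr.separable).map
  have hdvdE : (∏ π : Equiv.Perm R, (X - C (φ (Th π)))) ∣ (Ψ.map s).map (algebraMap k E) := by
    have h1 := Polynomial.map_dvd φ hdvd
    rw [Polynomial.map_map, hφ, ← Polynomial.map_map, Polynomial.map_prod] at h1
    refine (dvd_of_eq (Finset.prod_congr rfl fun π _ => ?_)).trans h1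
    rw [Polynomial.map_sub, map_X, map_C]
  have hφinj : Function.Injective fun π => φ (Th π) :=
    separable_prod_X_sub_C_iff.1 (hsepΨ.of_dvd hdvdE)
  have hφTh : ∀ π, φ (Th π) = ∑ r, (w r : E) * φ (rB (π r)) := by
    intro π
    simp only [Th, map_sum, map_mul, map_natCast]
  have hφr : Function.Injective fun r : R => φ (rB r) := by
    intro a b h
    by_contra hne
    have h1 : φ (Th (Equiv.swap a b)) = φ (Th 1) := by
      rw [hφTh, hφTh]
      refine Finset.sum_congr rfl fun r _ => ?_
      congr 1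
      by_cases hra : r = a
      · subst hra
        rw [Equiv.swap_apply_left]
        exact h.symm
      · by_cases hrb : r = b
        · subst hrb
          rw [Equiv.swap_apply_right]
          exact h
        · rw [Equiv.swap_apply_of_ne_of_ne hra hrb]
          rfl
    have h2 := hφinj h1
    exact hne (Equiv.swap_eq_one_iff.1 h2)
  have hev : (e.map s).Monic := he.map _
  have hevsep : (e.map s).Separable := by
    rw [← separable_map (algebraMap k E), hfacE]
    exact separable_prod_X_sub_C_iff.2 hφr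
  refine ⟨hevsep, ?_⟩
  -- the roots
  have hmem : ∀ x : E, aeval x (e.map s) = 0 ↔ ∃ r : R, φ (rB r) = x := by
    intro x
    have h1 : aeval x (e.map s) = eval x ((e.map s).map (algebraMap k E)) := (eval_map_algebraMap _ _).symm
    rw [h1, hfacE, eval_prod, Finset.prod_eq_zero_iff]
    constructor
    · rintro ⟨r, _, hr⟩
      rw [eval_sub, eval_X, eval_C] at hr
      exact ⟨r, (sub_eq_zero.1 hr).symm⟩
    · rintro ⟨r, hr⟩
      refine ⟨r, Finset.mem_univ _, ?_⟩
      rw [eval_sub, eval_X, eval_C, hr, sub_self]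
  have hrt : ∀ r : R, φ (rB r) ∈ (e.map s).rootSet E := fun r =>
    mem_rootSet.2 ⟨hev.ne_zero, (hmem _).2 ⟨r, rfl⟩⟩
  let ϕ : R ≃ (e.map s).rootSet E := Equiv.ofBijective (fun r => ⟨φ (rB r), hrt r⟩) (by
    constructor
    · intro a b h
      exact hφr (congrArg Subtype.val h)
    · rintro ⟨x, hx⟩
      obtain ⟨r, hr⟩ := (hmem x).1 (mem_rootSet.1 hx).2
      exact ⟨r, Subtype.ext hr⟩)
  have hϕ : ∀ r, ((ϕ r : (e.map s).rootSet E) : E) = φ (rB r) := fun r => rfl
  intro π'
  let π : Equiv.Perm R := (ϕ.trans π').trans ϕ.symm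
  have hπ : ∀ r, ϕ (π r) = π' (ϕ r) := by
    intro r
    show ϕ (ϕ.symm (π' (ϕ r))) = _
    rw [Equiv.apply_symm_apply]
  -- conjugation
  have hrootE : ∀ π, aeval (φ (Th π)) (Ψ.map s) = 0 := by
    intro π
    have h1 := congrArg φ (hroots π)
    rw [map_zero, aeval_def, hom_eval₂, hφ, ← eval₂_map] at h1
    exact h1
  obtain ⟨σ, hσ⟩ : ∃ σ : E ≃ₐ[k] E, σ (φ (Th 1)) = φ (Th π) := by
    refine isConjRoot_iff_exists_algEquiv.1 ?_
    show minpoly k (φ (Th π)) = minpoly k (φ (Th 1))
    rw [← minpoly.eq_of_irreducible hirr (hrootE π), ← minpoly.eq_of_irreducible hirr (hrootE 1)]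
  have hσr : ∀ r : R, ∃ r' : R, φ (rB r') = σ (φ (rB r)) := by
    intro r
    rw [← hmem]
    have h1 := aeval_algHom_apply (σ : E →ₐ[k] E) (φ (rB r)) (e.map s)
    rw [(hmem _).2 ⟨r, rfl⟩, map_zero] at h1
    exact h1
  choose ρ0 hρ0 using hσr
  have hρinj : Function.Injective ρ0 := by
    intro a b h
    have h1 : σ (φ (rB a)) = σ (φ (rB b)) := by rw [← hρ0, ← hρ0, h]
    exact hφr (σ.injective h1)
  let ρ : Equiv.Perm R := Equiv.ofBijective ρ0 (Finite.injective_iff_bijective.1 hρinj)
  have hρ : ∀ r, φ (rB (ρ r)) = σ (φ (rB r)) := fun r => hρ0 r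
  have h1 : φ (Th ρ) = φ (Th π) := by
    rw [← hσ, hφTh, hφTh, map_sum]
    refine Finset.sum_congr rfl fun r _ => ?_
    rw [map_mul, map_natCast, hρ]
    rfl
  have h2 : ρ = π := hφinj h1
  refine ⟨σ, fun x => ?_⟩
  obtain ⟨r, rfl⟩ := ϕ.surjective x
  rw [← hπ, hϕ, hϕ, ← h2, hρ]

theorem main : S_SPC := by
  intro k _ _ ι _ _ e he hfull ε hε
  haveI : CharZero (MvPolynomial ι k) :=
    charZero_of_injective_algebraMap (MvPolynomial.C_injective ι k)
  obtain ⟨Ψ, hΨm, hΨi, hΨ⟩ := key (k := k) e he hfull
  refine Pool.Agent.Y706.UD_mono ?_ (Pool.Agent.Q45.HI.ud_irr hΨm hΨi hε)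
  intro v hv hcon
  refine hv (hΨ (spc k v) ?_ hcon)
  intro a
  refine ⟨MvPolynomial.C a, ?_⟩
  show MvPolynomial.eval _ (MvPolynomial.C a) = a
  rw [MvPolynomial.eval_C]

end Pool.Agent.Q299.SN.SPC
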