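import Mathlib

/-!
# Preparations for Hilbert irreducibility for the full symmetric group (job SN-SPC of helper45)
-/

set_option autoImplicit false
set_option linter.all false

open Polynomial
open scoped Classical

namespace Pool.Agent.Q299.SN.SPC

/-- Integral weights which separate the permutations. -/
theorem exists_w {M : Type} [Field M] [CharZero M] {ι : Type} [Fintype ι] (x : ι → M)
    (hx : Function.Injective x) :
    ∃ w : ι → ℕ, ∀ π ρ : Equiv.Perm ι, π ≠ ρ →
      ∑ r, (w r : M) * x (π r) ≠ ∑ r, (w r : M) * x (ρ r) := by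
  let idx : ι ≃ Fin (Fintype.card ι) := Fintype.equivFin ι
  let Q : Equiv.Perm ι → Equiv.Perm ι → M[X] := fun π ρ =>
    ∑ r, C (x (π r) - x (ρ r)) * X ^ (idx r : ℕ)
  have hQ : ∀ π ρ : Equiv.Perm ι, π ≠ ρ → Q π ρ ≠ 0 := by
    intro π ρ h h0
    obtain ⟨r, hr⟩ : ∃ r, π r ≠ ρ r := by
      by_contra hcon
      push Not at hcon
      exact h (Equiv.ext hcon)
    have h1 := congrArg (fun p : M[X] => p.coeff (idx r : ℕ)) h0
    simp only [Q, finset_sum_coeff, coeff_C_mul, coeff_X_pow, coeff_zero] at h1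
    rw [Finset.sum_eq_single r] at h1
    · simp only [if_true, mul_one] at h1
      exact hr (hx (sub_eq_zero.1 h1))
    · intro b _ hb
      rw [if_neg, mul_zero]
      intro h2
      exact hb (idx.injective (Fin.ext h2)).symm
    · intro h2
      exact absurd (Finset.mem_univ r) h2
  let Z : Finset M := (Finset.univ : Finset (Equiv.Perm ι × Equiv.Perm ι)).biUnion fun z =>
    (Q z.1 z.2).roots.toFinset
  obtain ⟨y, ⟨m, rfl⟩, hm⟩ := (Set.infinite_range_of_injective
    (Nat.cast_injective (R := M))).exists_notMem_finset Z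
  refine ⟨fun r => m ^ (idx r : ℕ), fun π ρ h h1 => hm ?_⟩
  rw [Finset.mem_biUnion]
  refine ⟨(π, ρ), Finset.mem_univ _, ?_⟩
  rw [Multiset.mem_toFinset, mem_roots (hQ π ρ h), IsRoot, eval_finset_sum]
  have h2 : ∀ r, eval (m : M) (C (x (π r) - x (ρ r)) * X ^ (idx r : ℕ)) =
      ((m ^ (idx r : ℕ) : ℕ) : M) * x (π r) - ((m ^ (idx r : ℕ) : ℕ) : M) * x (ρ r) := by
    intro r
    rw [eval_mul, eval_C, eval_pow, eval_X]
    push_cast
    ring
  rw [Finset.sum_congr rfl (fun r _ => h2 r), Finset.sum_sub_distrib, sub_eq_zero]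
  exact h1

/-- Extension of a specialization to an integral extension. -/
theorem exists_ext {A B k E : Type} [CommRing A] [CommRing B] [Algebra A B] [Algebra.IsIntegral A B]
    (hinj : Function.Injective (algebraMap A B)) [Field k] (s : A →+* k)
    (hs : Function.Surjective s) [Field E] [Algebra k E] [IsAlgClosed E] :
    ∃ φ : B →+* E, φ.comp (algebraMap A B) = (algebraMap k E).comp s := by
  haveI hP : (RingHom.ker s).IsMaximal := RingHom.ker_isMaximal_of_surjective s hs
  obtain ⟨Q, hQ, hQP⟩ := Ideal.exists_ideal_over_maximal_of_isIntegral (S := B) (RingHom.ker s) (by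
    rw [(RingHom.injective_iff_ker_eq_bot _).1 hinj]
    exact bot_le)
  letI : Field (B ⧸ Q) := Ideal.Quotient.field Q
  have hker : ∀ a : A, s a = 0 → Ideal.Quotient.mk Q (algebraMap A B a) = 0 := by
    intro a ha
    rw [Ideal.Quotient.eq_zero_iff_mem]
    have : a ∈ Q.comap (algebraMap A B) := by
      rw [hQP]
      exact ha
    exact this
  let j : k →+* B ⧸ Q := RingHom.liftOfSurjective s hs
    ⟨(Ideal.Quotient.mk Q).comp (algebraMap A B), fun a ha => hker a ha⟩
  have hj : ∀ a : A, j (s a) = Ideal.Quotient.mk Q (algebraMap A B a) := by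
    intro a
    exact RingHom.liftOfRightInverse_comp_apply s _ _ ⟨(Ideal.Quotient.mk Q).comp (algebraMap A B), fun a ha => hker a ha⟩ a
  letI : Algebra k (B ⧸ Q) := j.toAlgebra
  haveI : Algebra.IsIntegral k (B ⧸ Q) := by
    constructor
    intro z
    obtain ⟨b, rfl⟩ := Ideal.Quotient.mk_surjective z
    obtain ⟨f, hf, hf0⟩ := Algebra.IsIntegral.isIntegral (R := A) b
    refine ⟨f.map s, hf.map s, ?_⟩
    have h1 : (algebraMap k (B ⧸ Q)).comp s = (Ideal.Quotient.mk Q).comp (algebraMap A B) :=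
      RingHom.ext fun a => hj a
    rw [eval₂_map, h1, ← hom_eval₂, hf0, map_zero]
  let ψ : (B ⧸ Q) →ₐ[k] E := IsAlgClosed.lift
  refine ⟨(ψ : (B ⧸ Q) →+* E).comp (Ideal.Quotient.mk Q), RingHom.ext fun a => ?_⟩
  show ψ (Ideal.Quotient.mk Q (algebraMap A B a)) = algebraMap k E (s a)
  rw [← hj a]
  exact ψ.commutes (s a)

end Pool.Agent.Q299.SN.SPC
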